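import Pool.Agent.helper17.CH.All

/-!
# A prime `p` and `p + 6` with at most three prime factors between almost all consecutive cubes (MP_5628fe_nt)
-/

set_option autoImplicit false

namespace Pool.Agent.Results.MP_5628fe_nt.ChenAlmostAllCubes

/-- The primes `p` with `n ^ 3 < p < p + 6 < (n + 1) ^ 3` such that `p + 6` has at most three prime factors (with
multiplicity), each prime factor `q` of `p + 6` satisfies `n < q ^ 6`, and there is no prime strictly between `p` and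
`p + 6`. -/
def Good (n : ℕ) : Set ℕ :=
  {p | p.Prime ∧ n ^ 3 < p ∧ p + 6 < (n + 1) ^ 3 ∧
    ArithmeticFunction.cardFactors (p + 6) ≤ 3 ∧
    (∀ q : ℕ, q.Prime → q ∣ p + 6 → n < q ^ 6) ∧
    ∀ q : ℕ, p < q → q < p + 6 → ¬ q.Prime}

lemma good_of_GP (n p : ℕ) (h : p ∈ Pool.Agent.CH.GP n) : p ∈ Good n := by
  unfold Pool.Agent.CH.GP at h
  rw [Finset.mem_filter, Finset.mem_Ioo] at h
  obtain ⟨⟨h1, h2⟩, h3, h4, h5, h6, h7⟩ := h
  refine ⟨h3, h1, h4, h6, ?_, ?_⟩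
  · intro q hq hd
    exact h7 q (Nat.mem_primeFactors.2 ⟨hq, hd, by omega⟩)
  · intro q hq1 hq2 hq
    have hp : 30 ≤ p := by
      by_contra hlt
      push Not at hlt
      have : p = 1 := by omega
      rw [this] at h3
      exact Nat.not_prime_one h3
    have h8 : q % 30 = 2 ∨ q % 30 = 3 ∨ q % 30 = 4 ∨ q % 30 = 5 ∨ q % 30 = 6 := by omega
    have h2' : q % 2 = 0 ∨ q % 3 = 0 ∨ q % 5 = 0 := by omega
    rcases h2' with h | h | h
    · have := (Nat.prime_dvd_prime_iff_eq Nat.prime_two hq).1 (Nat.dvd_of_mod_eq_zero h); omega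
    · have := (Nat.prime_dvd_prime_iff_eq Nat.prime_three hq).1 (Nat.dvd_of_mod_eq_zero h); omega
    · have := (Nat.prime_dvd_prime_iff_eq Nat.prime_five hq).1 (Nat.dvd_of_mod_eq_zero h); omega

lemma good_finite (n : ℕ) : (Good n).Finite :=
  (Set.finite_Iio ((n + 1) ^ 3)).subset fun p hp => by
    have := hp.2.2.1
    simp only [Set.mem_Iio]
    omega

lemma card_le (n : ℕ) : ((Pool.Agent.CH.GP n).card : ℝ) ≤ ((Good n).ncard : ℝ) := by
  have h : (Pool.Agent.CH.GP n : Set ℕ) ⊆ Good n := fun p hp => good_of_GP n p hp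
  have := Set.ncard_le_ncard h (good_finite n)
  rw [Set.ncard_coe_finset] at this
  exact_mod_cast this

/-- There is `c > 0` such that for every `A` there is `C` with: for every `N ≥ 2` the set `Good n` has at least
`c n ^ 2 / (log n) ^ 2` elements for all `n ≤ N` with at most `C N / (log N) ^ A` exceptions. -/
theorem result : ∃ c : ℝ, 0 < c ∧ ∀ A : ℕ, ∃ C : ℝ, ∀ N : ℕ, 2 ≤ N →
    (({n : ℕ | 1 ≤ n ∧ n ≤ N ∧ ((Good n).ncard : ℝ) < c * (n : ℝ) ^ 2 / Real.log n ^ 2}.ncard : ℕ) : ℝ) ≤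
      C * N / Real.log N ^ A := by
  classical
  obtain ⟨c, hc, h⟩ := Pool.Agent.CH.All.FID_all
  refine ⟨c, hc, fun A => ?_⟩
  obtain ⟨N₀, h0⟩ := h A
  obtain ⟨C, hC⟩ := Pool.Agent.CH.All.DYL_all
    (fun n : ℕ => ((Pool.Agent.CH.GP n).card : ℝ) < c * (n : ℝ) ^ 2 / Real.log n ^ 2) A N₀
    (by
      intro N hN
      refine le_trans (le_of_eq ?_) (h0 N hN)
      norm_cast)
  refine ⟨C, fun N hN => le_trans ?_ (hC N hN)⟩
  have hsub : {n : ℕ | 1 ≤ n ∧ n ≤ N ∧ ((Good n).ncard : ℝ) < c * (n : ℝ) ^ 2 / Real.log n ^ 2} ⊆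
      (((Finset.Icc 1 N).filter fun n : ℕ => ((Pool.Agent.CH.GP n).card : ℝ) <
        c * (n : ℝ) ^ 2 / Real.log n ^ 2 : Finset ℕ) : Set ℕ) := by
    intro n hn
    obtain ⟨h1, h2, h3⟩ := hn
    simp only [Finset.coe_filter, Finset.mem_Icc, Set.mem_ofPred_eq]
    exact ⟨⟨h1, h2⟩, (card_le n).trans_lt h3⟩
  have := Set.ncard_le_ncard hsub (Finset.finite_toSet _)
  rw [Set.ncard_coe_finset] at this
  have h9 : (({n : ℕ | 1 ≤ n ∧ n ≤ N ∧ ((Good n).ncard : ℝ) < c * (n : ℝ) ^ 2 / Real.log n ^ 2}.ncard : ℕ) : ℝ) ≤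
      ((((Finset.Icc 1 N).filter fun n : ℕ => ((Pool.Agent.CH.GP n).card : ℝ) <
        c * (n : ℝ) ^ 2 / Real.log n ^ 2).card : ℕ) : ℝ) := by exact_mod_cast this
  refine h9.trans (le_of_eq ?_)
  norm_cast

end Pool.Agent.Results.MP_5628fe_nt.ChenAlmostAllCubes
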